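import Pool.Agent.Lib.MP_9b9638_an.Statement
import Pool.Agent.Lib.MP_9b9638_an.OsgR

/-!
# The endpoint `p = 1` up to a logarithm: an Osgood condition

For all `ν > 0`, `a > 0`: let `V ∈ W^{1,2}_loc(ℝ³;ℝ³)` be a weak profile of Leray's equations
`-ν ΔV + a V + a (y·∇)V + (V·∇)V + ∇P = 0`, `div V = 0`.

1. If `∫_{ℝ³} |V| (log (2 + |V|))^(1+ε) < ∞` for some `ε > 0`, then `V = 0` almost everywhere.

2. More generally let `Φ : ℝ → [1, ∞)` be nondecreasing and `∫_{ℝ³} |V| Φ(log (2 + |V|)) < ∞`. If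
`∫_0^∞ dt / Φ(t) < ∞`, then `V = 0` almost everywhere. In general, if `V` does not vanish almost everywhere, then for
every `q > 1`, with `D(R) = ∫_{B_R} |V|^q` (which is finite) and `Λ(s) = ∫_0^s dt / Φ(t)`,
`R⁻² Λ(log D(R)) → ∞` as `R → ∞`.

For `Φ = 1` the last statement says that a nonzero integrable profile has `R⁻² log ∫_{B_R} |V|^q → ∞`; for `Φ(t) = 1 + t`
(`t ≥ 0`) it says that a nonzero profile with `∫ |V| log (2 + |V|) < ∞` has `R⁻² log log ∫_{B_R} |V|^q → ∞`.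

The definitions used in the statement are in the files `Defs` (`Leray.E`, `Leray.ei`, `Leray.pd`, `Leray.VF`,
`Leray.dv`) and `Statement` (`Leray.IsProfile` and its ingredients) of `Pool.Agent.Lib.MP_9b9638_an`.
-/

open MeasureTheory Filter Set

namespace Pool.Agent.Results.MP_9b9638_an.EndpointOsgood

theorem result {ν a : ℝ} (hν : 0 < ν) (ha : 0 < a) (V : Leray.E → Leray.E) (hV : Leray.IsProfile ν a V) :
    (∀ ε : ℝ, 0 < ε → Integrable (fun x => ‖V x‖ * Real.log (2 + ‖V x‖) ^ (1 + ε)) volume → V =ᵐ[volume] 0) ∧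
    (∀ Φ : ℝ → ℝ, Monotone Φ → (∀ s, 1 ≤ Φ s) →
      Integrable (fun x => ‖V x‖ * Φ (Real.log (2 + ‖V x‖))) volume →
      (IntegrableOn (fun t => (Φ t)⁻¹) (Ioi 0) volume → V =ᵐ[volume] 0) ∧
      (¬ V =ᵐ[volume] 0 → ∀ q : ℝ, 1 < q →
        (∀ R : ℝ, IntegrableOn (fun x => ‖V x‖ ^ q) (Metric.ball 0 R)) ∧
        Tendsto (fun R : ℝ => (∫ t in (0 : ℝ)..Real.log (∫ x in Metric.ball 0 R, ‖V x‖ ^ q), (Φ t)⁻¹) / R ^ 2)
          atTop atTop)) :=
  ⟨fun _ hε hint => Leray.main_log hν ha hε V hV hint,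
   fun _ hΦ hΦ1 hint => ⟨fun hL => Leray.main_osg_zero hν ha hΦ hΦ1 V hV hint hL,
    fun hne _ hq => Leray.main_osg hν ha hq hΦ hΦ1 V hV hint hne⟩⟩

end Pool.Agent.Results.MP_9b9638_an.EndpointOsgood
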