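import Pool.Agent.Lib.MP_9b9638_an.Statement
import Pool.Agent.Lib.MP_9b9638_an.Main

/-!
# No backward self-similar profile in `L^p`, `1 < p < 3`

For all `ν > 0`, `a > 0` and `1 < p < 3`: every weak profile `V ∈ W^{1,2}_loc(ℝ³;ℝ³)` of Leray's equations
`-ν ΔV + a V + a (y·∇)V + (V·∇)V + ∇P = 0`, `div V = 0` (in the sense of distributions, for some distribution
`P`) which lies in `L^p(ℝ³)` vanishes almost everywhere.

The definitions used in the statement are in the files `Defs` (`Leray.E`, `Leray.ei`, `Leray.pd`, `Leray.VF`, `Leray.dv`) and
`Statement` (`Leray.IsProfile` and its ingredients) of `Pool.Agent.Lib.MP_9b9638_an`.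

Idea of the proof: the equation is tested with `curl (φ Ψ)`, where `Ψ` is a vector potential of `V` and `φ` a
cutoff function of a ball which varies only in a thin shell; the width of the shell is a negative power of the
enstrophy of a larger ball. This bounds the enstrophy; a weighted maximum principle for the head pressure
finishes the proof.
-/

open MeasureTheory

namespace Pool.Agent.Results.MP_9b9638_an.NoProfileAboveOne

theorem result {ν a p : ℝ} (hν : 0 < ν) (ha : 0 < a) (h1 : 1 < p) (h3 : p < 3) (V : Leray.E → Leray.E)
    (hV : Leray.IsProfile ν a V) (hLp : MemLp V (ENNReal.ofReal p) volume) : V =ᵐ[volume] 0 :=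
  Leray.main hν ha h1 h3 V hV.df hLp

end Pool.Agent.Results.MP_9b9638_an.NoProfileAboveOne
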